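import Pool.Agent.Helper45.CF.GoalsD

/-!
Packet CF2-APX (MP_d97caa_an, CAR fields, stage 2): closed subsets of the Hilbert cube are decreasing
intersections of finite unions of boxes.
-/

set_option autoImplicit false

open scoped Topology
open TopologicalSpace Filter

namespace Pool.Agent.Helper87.CF2.APX

/-- finite unions of boxes. -/
def FB (K : Set (ℕ → unitInterval)) : Prop :=
  ∃ (ι : Type) (_ : Finite ι) (a b : ι → ℕ → unitInterval), K = ⋃ i, Set.Icc (a i) (b i)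

theorem FB.toFin {K : Set (ℕ → unitInterval)} (h : FB K) :
    ∃ (m : ℕ) (a b : Fin m → ℕ → unitInterval), K = ⋃ i, Set.Icc (a i) (b i) := by
  obtain ⟨ι, hι, a, b, rfl⟩ := h
  obtain ⟨m, ⟨e⟩⟩ := Finite.exists_equiv_fin ι
  refine ⟨m, fun i => a (e.symm i), fun i => b (e.symm i), ?_⟩
  exact (Equiv.iSup_comp (g := fun i => Set.Icc (a i) (b i)) e.symm).symm

theorem FB.univ : FB Set.univ := by
  refine ⟨Unit, inferInstance, fun _ => ⊥, fun _ => ⊤, ?_⟩
  ext x
  simp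

theorem FB.inter {K L : Set (ℕ → unitInterval)} (hK : FB K) (hL : FB L) : FB (K ∩ L) := by
  obtain ⟨ι, hι, a, b, rfl⟩ := hK
  obtain ⟨κ, hκ, c, d, rfl⟩ := hL
  refine ⟨ι × κ, inferInstance, fun p => a p.1 ⊔ c p.2, fun p => b p.1 ⊓ d p.2, ?_⟩
  ext x
  simp only [Set.mem_inter_iff, Set.mem_iUnion, Prod.exists, ← Set.Icc_inter_Icc]
  constructor
  · rintro ⟨⟨i, hi⟩, ⟨j, hj⟩⟩
    exact ⟨i, j, hi, hj⟩
  · rintro ⟨i, j, hi, hj⟩
    exact ⟨⟨i, hi⟩, ⟨j, hj⟩⟩

theorem box_nhds (U : Set (ℕ → unitInterval)) (hU : IsOpen U) (x : ℕ → unitInterval) (hx : x ∈ U) :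
    ∃ a b : ℕ → unitInterval, Set.Icc a b ∈ 𝓝 x ∧ Set.Icc a b ⊆ U := by
  classical
  obtain ⟨I, u, hu, hsub⟩ := isOpen_pi_iff.1 hU x hx
  have h1 : ∀ i : ℕ, ∃ c d : unitInterval, Set.Icc c d ∈ 𝓝 (x i) ∧ (i ∈ I → Set.Icc c d ⊆ u i) ∧
      (i ∉ I → Set.Icc c d = Set.univ) := by
    intro i
    by_cases hi : i ∈ I
    · obtain ⟨c, d, _, h3, h4⟩ :=
        exists_Icc_mem_subset_of_mem_nhds ((hu i hi).1.mem_nhds (hu i hi).2)
      exact ⟨c, d, h3, fun _ => h4, fun h => absurd hi h⟩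
    · refine ⟨⊥, ⊤, ?_, fun h => absurd h hi, fun _ => Set.Icc_bot_top⟩
      rw [Set.Icc_bot_top]
      exact univ_mem
  choose a b hab1 hab2 hab3 using h1
  have hpi : Set.Icc a b = (I : Set ℕ).pi (fun i => Set.Icc (a i) (b i)) := by
    ext z
    rw [← Set.pi_univ_Icc, Set.mem_univ_pi, Set.mem_pi]
    constructor
    · intro h i _
      exact h i
    · intro h i
      by_cases hi : i ∈ I
      · exact h i hi
      · rw [hab3 i hi]
        exact Set.mem_univ _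
  refine ⟨a, b, ?_, ?_⟩
  · rw [hpi]
    exact set_pi_mem_nhds I.finite_toSet fun i _ => hab1 i
  · rw [hpi]
    refine subset_trans ?_ hsub
    intro z hz i hi
    exact hab2 i hi (hz i hi)

theorem between (X U : Set (ℕ → unitInterval)) (hX : IsClosed X) (hU : IsOpen U) (hXU : X ⊆ U) :
    ∃ K, FB K ∧ X ⊆ K ∧ K ⊆ U := by
  have h1 : ∀ x : ℕ → unitInterval, ∃ a b : ℕ → unitInterval, x ∈ U →
      Set.Icc a b ∈ 𝓝 x ∧ Set.Icc a b ⊆ U := by
    intro x
    by_cases hx : x ∈ U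
    · obtain ⟨a, b, h⟩ := box_nhds U hU x hx
      exact ⟨a, b, fun _ => h⟩
    · exact ⟨x, x, fun h => absurd h hx⟩
  choose a b hab using h1
  obtain ⟨t, ht1, ht2⟩ := hX.isCompact.elim_nhds_subcover (fun x => Set.Icc (a x) (b x))
    fun x hx => (hab x (hXU hx)).1
  refine ⟨⋃ x : t, Set.Icc (a x) (b x), ⟨t, inferInstance, fun x => a x, fun x => b x, rfl⟩, ?_, ?_⟩
  · intro z hz
    obtain ⟨x, hx, hzx⟩ := Set.mem_iUnion₂.1 (ht2 hz)
    exact Set.mem_iUnion.2 ⟨⟨x, hx⟩, hzx⟩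
  · intro z hz
    obtain ⟨x, hzx⟩ := Set.mem_iUnion.1 hz
    exact (hab x (hXU (ht1 x x.2))).2 hzx

theorem t : Pool.Agent.Helper45.CF.S_APX := by
  intro X hX
  obtain ⟨U, hU, hXU⟩ := (hX.isGδ).eq_iInter_nat
  have h1 : ∀ n, ∃ K, FB K ∧ X ⊆ K ∧ K ⊆ U n := by
    intro n
    refine between X (U n) hX (hU n) ?_
    rw [hXU]
    exact Set.iInter_subset _ n
  choose L hL1 hL2 hL3 using h1
  have hfb : ∀ s : Finset ℕ, FB (⋂ i ∈ s, L i) := by
    intro s
    induction s using Finset.induction_on with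
    | empty =>
      simp only [Finset.notMem_empty, Set.iInter_of_empty, Set.iInter_univ]
      exact FB.univ
    | insert i s _ ih =>
      rw [Finset.set_biInter_insert]
      exact (hL1 i).inter ih
  refine ⟨fun n => ⋂ i ∈ Finset.range (n + 1), L i, fun n => (hfb _).toFin, ?_, ?_⟩
  · intro n m hnm z hz
    rw [Set.mem_iInter₂] at hz ⊢
    intro i hi
    refine hz i ?_
    rw [Finset.mem_range] at hi ⊢
    omega
  · apply subset_antisymm
    · intro z hz
      rw [hXU, Set.mem_iInter]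
      intro n
      have h2 := Set.mem_iInter.1 hz n
      rw [Set.mem_iInter₂] at h2
      exact hL3 n (h2 n (Finset.mem_range.2 (Nat.lt_succ_self n)))
    · intro z hz
      rw [Set.mem_iInter]
      intro n
      rw [Set.mem_iInter₂]
      intro i _
      exact hL2 i hz

end Pool.Agent.Helper87.CF2.APX
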